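import Pool.Agent.Helper56.TH.Iface

/-!
# The bridge between `L₂`-structures and the frame (MP_6f1bc5_lc, block T11)
-/

set_option linter.unusedSectionVars false

universe u

namespace Pool.Agent.Helper56.TH

open Classical

/-- decoding of an assignment of `n` number variables -/
noncomputable def decode {M : Type u} [CommSemiring M] : (n : ℕ) → M → (Fin n → M)
  | 0, _ => fun i => i.elim0
  | n + 1, x => Fin.cons (p1 x) (decode n (p2 x))

section

variable (A : L2.{u}) [CommSemiring A.N] [LinearOrder A.N] [IsStrictOrderedRing A.N]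
  [CanonicallyOrderedAdd A.N]

theorem pair_eq_pr (hadd : ∀ x y : A.N, x + y = A.add x y) (hmul : ∀ x y : A.N, x * y = A.mul x y)
    (m n : A.N) : A.pair m n = pr m n := by
  unfold L2.pair pr
  rw [← hadd, ← hmul, ← hadd]

theorem isFun_iff (hadd : ∀ x y : A.N, x + y = A.add x y)
    (hmul : ∀ x y : A.N, x * y = A.mul x y) (h : Base A.sets) (f : A.N → A.N) :
    A.IsFun f ↔ Fn A.sets f := by
  have e : {p | ∃ n, p = A.pair n (f n)} = {p | ∃ n, p = pr n (f n)} := by
    ext p
    simp only [pair_eq_pr A hadd hmul]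
  unfold L2.IsFun
  rw [e]
  constructor
  · intro hG
    have hG' : Dec A.sets (fun p => ∃ n, p = pr n (f n)) := hG
    refine h.congr (h.comp hG' (h.fn_pr h.fn_p1 h.fn_p2)) fun p => ?_
    constructor
    · rintro ⟨n, hn⟩
      obtain ⟨h1, h2⟩ := h.pr_inj hn
      rw [h1, h2]
    · intro hp
      exact ⟨p1 p, by rw [hp]⟩
  · intro hF
    refine h.congr (h.and hF (h.eq h.fn_id (h.fn_pr h.fn_p1 h.fn_p2))) fun p => ?_
    constructor
    · rintro ⟨h1, h2⟩
      exact ⟨p1 p, by rw [h1]; exact h2⟩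
    · rintro ⟨n, rfl⟩
      rw [h.p1_pr, h.p2_pr]
      exact ⟨rfl, rfl⟩

theorem thinF_of_thinHT (hadd : ∀ x y : A.N, x + y = A.add x y)
    (hmul : ∀ x y : A.N, x * y = A.mul x y) (h0 : (0 : A.N) = A.zero) (h1 : (1 : A.N) = A.one)
    (hlt : ∀ x y : A.N, x < y ↔ A.lt x y) (h : Base A.sets) (hT : ThinHT A) :
    ThinF A.sets := by
  intro c hc
  obtain ⟨X, hX, hinf, i, hi⟩ := hT c ((isFun_iff A hadd hmul h c).2 hc)
  refine ⟨X, hX, ?_, i, ?_⟩
  · intro b
    obtain ⟨x, hx, hbx⟩ := hinf b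
    exact ⟨x, hx, (hlt _ _).2 hbx⟩
  · intro F hF hFX hne x hx
    refine hi F hF hFX hne x ?_
    obtain ⟨g, hg, hg0, hg1, hg2, b, hb, hbx⟩ := hx
    refine ⟨g, (isFun_iff A hadd hmul h g).2 hg, ?_, ?_, ?_, b, ?_, hbx⟩
    · rw [← h0]; exact hg0
    · intro n hn
      rw [← hadd, ← hadd, ← h1]; exact hg1 n hn
    · intro n hn
      rw [← hadd, ← h1]; exact hg2 n hn
    · intro n hn
      exact (hlt _ _).1 (hb n hn)

theorem fn_decode (h : Base A.sets) : ∀ (n : ℕ) (i : Fin n), Fn A.sets (fun x => decode n x i)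
  | 0, i => i.elim0
  | n + 1, i => by
    refine Fin.cases ?_ (fun j => ?_) i
    · exact Base.fn_congr h.fn_p1 fun x => by simp [decode]
    · exact Base.fn_congr (h.fn_comp (fn_decode h n j) h.fn_p2) fun x => by simp [decode]

theorem fn_val (hadd : ∀ x y : A.N, x + y = A.add x y)
    (hmul : ∀ x y : A.N, x * y = A.mul x y) (h : Base A.sets) {n : ℕ} (t : Tm A n) :
    Fn A.sets (fun x => t.val (decode n x)) := by
  induction t with
  | var i => exact fn_decode A h n i
  | par a => exact h.fn_const a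
  | zero => exact h.fn_const A.zero
  | one => exact h.fn_const A.one
  | add s t hs ht =>
    exact Base.fn_congr (h.fn_add hs ht) fun x => by simp only [Tm.val, hadd]
  | mul s t hs ht =>
    exact Base.fn_congr (h.fn_mul hs ht) fun x => by simp only [Tm.val, hmul]

theorem dec_sat (hadd : ∀ x y : A.N, x + y = A.add x y)
    (hmul : ∀ x y : A.N, x * y = A.mul x y)
    (hlt : ∀ x y : A.N, x < y ↔ A.lt x y) (h : Base A.sets) (hS : SigmaCA A.sets) {n : ℕ}
    (φ : Fm A n) : Dec A.sets (fun x => φ.Sat (decode n x)) := by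
  induction φ with
  | eq s t => exact h.eq (fn_val A hadd hmul h s) (fn_val A hadd hmul h t)
  | lt s t =>
    exact h.congr (h.lt (fn_val A hadd hmul h s) (fn_val A hadd hmul h t)) fun x => by
      simp only [Fm.Sat, hlt]
  | mem t X hX =>
    exact h.comp (P := fun x => x ∈ X) hX (fn_val A hadd hmul h t)
  | not φ hφ => exact h.not hφ
  | and φ ψ hφ hψ => exact h.and hφ hψ
  | @ball n t φ hφ =>
    have h2 : Dec₂ A.sets (fun y x => φ.Sat (Fin.cons y (decode n x))) := hφ
    exact h.congr (h.ball (fn_val A hadd hmul h t) h2) fun x => by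
      simp only [Fm.Sat, hlt]
  | @all n φ hφ =>
    have h2 : Dec₂ A.sets (fun y x => ¬ φ.Sat (Fin.cons y (decode n x))) := h.not hφ
    exact h.congr (h.not (hS _ h2)) fun x => by
      simp only [Fm.Sat, not_exists, not_not]

theorem aca_of_sigmaCA (hA : BasicAxioms A) (hadd : ∀ x y : A.N, x + y = A.add x y)
    (hmul : ∀ x y : A.N, x * y = A.mul x y) (h0 : (0 : A.N) = A.zero) (h1 : (1 : A.N) = A.one)
    (hlt : ∀ x y : A.N, x < y ↔ A.lt x y) (h : Base A.sets) (hS : SigmaCA A.sets) :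
    ACA0 A := by
  refine ⟨hA, ?_, ?_⟩
  · intro X hX hz hs n
    refine h.ind (P := fun x => x ∈ X) hX ?_ ?_ n
    · rw [h0]; exact hz
    · intro x hx
      rw [hadd, h1]; exact hs x hx
  · intro φ
    have h2 := h.comp (dec_sat A hadd hmul hlt h hS φ) (h.fn_pr h.fn_id (h.fn_const 0))
    refine h.congr h2 fun n => ?_
    have e : decode 1 (pr n (0 : A.N)) = ![n] := by
      funext i
      refine Fin.cases ?_ (fun j => j.elim0) i
      simp [decode, h.p1_pr]
    rw [e]

end

end Pool.Agent.Helper56.TH
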